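import Pool.Agent.T6.H7.PF.Defs

/-!
# M1: a reduced basis of a section (project PF, MP_86f7a7_co)
-/

set_option autoImplicit false

open scoped BigOperators

namespace Pool.Agent.T6.H94.PF.M1

open Pool.Agent.T6.H7.PF

section gen

variable {F : Type*} [NormedAddCommGroup F] [InnerProductSpace ℝ F] [FiniteDimensional ℝ F]

/-- distance to a subspace -/
noncomputable def dst (W : Submodule ℝ F) (x : F) : ℝ := ‖x - W.starProjection x‖

lemma dst_nonneg (W : Submodule ℝ F) (x : F) : 0 ≤ dst W x := norm_nonneg _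

lemma dst_le {W : Submodule ℝ F} {x w : F} (hw : w ∈ W) : dst W x ≤ ‖x - w‖ := by
  have h1 := W.starProjection_minimal x
  unfold dst
  rw [h1]
  have hb : BddBelow (Set.range fun w : W => ‖x - w‖) :=
    ⟨0, by rintro _ ⟨w, rfl⟩; exact norm_nonneg _⟩
  exact ciInf_le hb ⟨w, hw⟩

lemma dst_le_norm (W : Submodule ℝ F) (x : F) : dst W x ≤ ‖x‖ := by
  simpa using dst_le (x := x) W.zero_mem

lemma dst_of_mem {W : Submodule ℝ F} {x : F} (hx : x ∈ W) : dst W x = 0 := by
  have := dst_le (x := x) hx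
  have := dst_nonneg W x
  simp at *
  linarith

lemma dst_pos {W : Submodule ℝ F} {x : F} (hx : x ∉ W) : 0 < dst W x := by
  unfold dst
  rw [norm_pos_iff, sub_ne_zero]
  intro h
  exact hx (h ▸ W.starProjection_apply_mem x)

lemma dst_sub {W : Submodule ℝ F} (x : F) {w : F} (hw : w ∈ W) : dst W (x - w) = dst W x := by
  unfold dst
  rw [map_sub, (Submodule.starProjection_eq_self_iff).2 hw]
  congr 1
  abel

lemma dst_bot (x : F) : dst (⊥ : Submodule ℝ F) x = ‖x‖ := by
  apply le_antisymm (dst_le_norm _ _)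
  unfold dst
  have : (⊥ : Submodule ℝ F).starProjection x = 0 := by
    have := (⊥ : Submodule ℝ F).starProjection_apply_mem x
    simp at this ⊢
  rw [this, sub_zero]

lemma one_step (W : Submodule ℝ F) (b x : F) : ∃ m : ℤ,
    dst W (x - m • b) ^ 2 ≤ dst (W ⊔ Submodule.span ℝ {b}) x ^ 2 + 1 / 4 * dst W b ^ 2 := by
  set g := b - W.starProjection b with hg
  set y := x - W.starProjection x with hy
  have hd : ∀ s : ℝ, dst W (x - s • b) = ‖y - s • g‖ := by
    intro s
    unfold dst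
    rw [map_sub, map_smul, hg, hy]
    congr 1
    rw [smul_sub]
    abel
  have hdm : ∀ m : ℤ, dst W (x - m • b) = ‖y - (m : ℝ) • g‖ := by
    intro m
    rw [← hd, Int.cast_smul_eq_zsmul]
  have hdb : dst W b = ‖g‖ := rfl
  -- the real optimum
  obtain ⟨s, hs⟩ : ∃ s : ℝ, ‖y - s • g‖ ≤ dst (W ⊔ Submodule.span ℝ {b}) x := by
    have hmem := (W ⊔ Submodule.span ℝ {b}).starProjection_apply_mem x
    obtain ⟨w, hw, z, hz, hwz⟩ := Submodule.mem_sup.1 hmem
    obtain ⟨s, rfl⟩ := Submodule.mem_span_singleton.1 hz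
    refine ⟨s, ?_⟩
    rw [← hd]
    refine (dst_le hw).trans (le_of_eq ?_)
    unfold dst
    rw [← hwz]
    congr 1
    abel
  have hexp : ∀ s : ℝ, ‖y - s • g‖ ^ 2 = ‖y‖ ^ 2 - 2 * s * inner ℝ y g + s ^ 2 * ‖g‖ ^ 2 := by
    intro s
    rw [norm_sub_sq_real, inner_smul_right, norm_smul, mul_pow, Real.norm_eq_abs, sq_abs]
    ring
  have hs2 : ‖y - s • g‖ ^ 2 ≤ dst (W ⊔ Submodule.span ℝ {b}) x ^ 2 :=
    pow_le_pow_left₀ (norm_nonneg _) hs 2
  rcases eq_or_ne g 0 with h0 | h0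
  · refine ⟨0, ?_⟩
    rw [hdm, hdb, h0]
    rw [h0] at hs2
    simpa using hs2
  · have hG : 0 < ‖g‖ ^ 2 := by positivity
    set t := inner ℝ y g / ‖g‖ ^ 2 with ht
    have hyg : inner ℝ y g = t * ‖g‖ ^ 2 := by rw [ht]; field_simp
    refine ⟨round t, ?_⟩
    rw [hdm, hdb, hexp, hyg]
    rw [hexp, hyg] at hs2
    have hr : |t - round t| ≤ 1 / 2 := abs_sub_round t
    have hr2 : (t - round t) ^ 2 ≤ 1 / 4 := by
      have := sq_le_sq' (abs_le.1 hr).1 (abs_le.1 hr).2
      linarith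
    nlinarith [mul_le_mul_of_nonneg_right hr2 hG.le, mul_nonneg (sq_nonneg (s - t)) hG.le]

/-- the Gram-Schmidt norm is the distance to the span of the previous vectors -/
lemma gs_eq_dst {ι : Type*} [LinearOrder ι] [LocallyFiniteOrderBot ι] [WellFoundedLT ι]
    (b : ι → F) (i : ι) :
    ‖InnerProductSpace.gramSchmidt ℝ b i‖ = dst (Submodule.span ℝ (b '' Set.Iio i)) (b i) := by
  unfold dst
  congr 1
  set W := Submodule.span ℝ (b '' Set.Iio i) with hW
  have h1 : b i - InnerProductSpace.gramSchmidt ℝ b i ∈ W := by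
    rw [InnerProductSpace.gramSchmidt_def, sub_sub_cancel]
    apply Submodule.sum_mem
    intro j hj
    rw [Submodule.starProjection_singleton]
    apply Submodule.smul_mem
    rw [hW, ← InnerProductSpace.span_gramSchmidt_Iio]
    exact Submodule.subset_span ⟨j, by simpa using hj, rfl⟩
  have h2 : ∀ w ∈ W, inner ℝ (InnerProductSpace.gramSchmidt ℝ b i) w = 0 := by
    intro w hw
    rw [hW] at hw
    induction hw using Submodule.span_induction with
    | mem x hx =>
      obtain ⟨j, hj, rfl⟩ := hx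
      exact InnerProductSpace.gramSchmidt_inv_triangular ℝ b hj
    | zero => simp
    | add x y _ _ hx hy => rw [inner_add_right, hx, hy, add_zero]
    | smul a x _ hx => rw [inner_smul_right, hx, mul_zero]
  have h3 : W.starProjection (b i) = b i - InnerProductSpace.gramSchmidt ℝ b i := by
    apply Submodule.eq_starProjection_of_mem_of_inner_eq_zero h1
    intro w hw
    rw [sub_sub_cancel]
    exact h2 w hw
  rw [h3, sub_sub_cancel]

/-- the chain of subspaces -/
noncomputable def Wq (nx : Submodule ℝ F → F) : ℕ → Submodule ℝ F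
  | 0 => ⊥
  | j + 1 => Wq nx j ⊔ Submodule.span ℝ {nx (Wq nx j)}

/-- the chain of vectors -/
noncomputable def bq (nx : Submodule ℝ F → F) (j : ℕ) : F := nx (Wq nx j)

lemma Wq_succ (nx : Submodule ℝ F → F) (j : ℕ) :
    Wq nx (j + 1) = Wq nx j ⊔ Submodule.span ℝ {bq nx j} := rfl

lemma Wq_eq_span (nx : Submodule ℝ F → F) (j : ℕ) :
    Wq nx j = Submodule.span ℝ (bq nx '' Set.Iio j) := by
  induction j with
  | zero => simp [Wq]
  | succ j ih =>
    rw [Wq_succ, ih]
    have : Set.Iio (j + 1) = insert j (Set.Iio j) := by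
      ext i
      simp only [Set.mem_Iio, Set.mem_insert_iff]
      omega
    rw [this, Set.image_insert_eq, Submodule.span_insert, sup_comm]

lemma bq_mem (nx : Submodule ℝ F → F) (j : ℕ) : bq nx j ∈ Wq nx (j + 1) := by
  rw [Wq_succ]
  exact Submodule.mem_sup_right (Submodule.mem_span_singleton_self _)

lemma Wq_mono (nx : Submodule ℝ F → F) {i j : ℕ} (h : i ≤ j) : Wq nx i ≤ Wq nx j := by
  induction h with
  | refl => exact le_rfl
  | step _ ih => exact ih.trans (by rw [Wq_succ]; exact le_sup_left)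

lemma size_red (nx : Submodule ℝ F → F) (M : AddSubgroup F) : ∀ j : ℕ,
    (∀ l < j, bq nx l ∈ M) → ∀ x : F, ∃ z ∈ M, z ∈ Wq nx j ∧
      ‖x - z‖ ^ 2 ≤ dst (Wq nx j) x ^ 2 +
        1 / 4 * ∑ l ∈ Finset.range j, dst (Wq nx l) (bq nx l) ^ 2 := by
  intro j
  induction j with
  | zero =>
    intro _ x
    refine ⟨0, M.zero_mem, Submodule.zero_mem _, ?_⟩
    simp [Wq, dst_bot]
  | succ j ih =>
    intro hM x
    obtain ⟨m, hm⟩ := one_step (Wq nx j) (bq nx j) x
    obtain ⟨z, hz, hz', hz''⟩ := ih (fun l hl => hM l (by omega)) (x - m • bq nx j)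
    refine ⟨m • bq nx j + z, M.add_mem (M.zsmul_mem (hM j (by omega)) m) hz, ?_, ?_⟩
    · exact Submodule.add_mem _ ((Wq nx (j + 1)).toAddSubgroup.zsmul_mem (bq_mem nx j) m)
        (Wq_mono nx (Nat.le_succ j) hz')
    · rw [← sub_sub, Finset.sum_range_succ, Wq_succ]
      linarith

lemma li (nx : Submodule ℝ F → F) : ∀ j : ℕ, (∀ i < j, bq nx i ∉ Wq nx i) →
    LinearIndependent ℝ (fun i : Fin j => bq nx i) := by
  intro j
  induction j with
  | zero => intro _; exact linearIndependent_empty_type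
  | succ j ih =>
    intro h
    rw [linearIndependent_finSucc']
    constructor
    · exact ih (fun i hi => h i (by omega))
    · have h1 := h j (by omega)
      rw [Wq_eq_span] at h1
      have h2 : Set.range (Fin.init fun i : Fin (j + 1) => bq nx i) = bq nx '' Set.Iio j := by
        ext y
        constructor
        · rintro ⟨i, rfl⟩
          exact ⟨i, i.2, rfl⟩
        · rintro ⟨i, hi, rfl⟩
          exact ⟨⟨i, hi⟩, rfl⟩
      rw [h2]
      simpa using h1

lemma int_comb (nx : Submodule ℝ F → F) (M : AddSubgroup F) : ∀ j : ℕ,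
    (∀ l < j, bq nx l ∈ M ∧ bq nx l ∉ Wq nx l ∧ ∀ x ∈ M, x ∈ Wq nx j → x ∉ Wq nx l →
      dst (Wq nx l) (bq nx l) ≤ dst (Wq nx l) x) →
    ∀ x ∈ M, x ∈ Wq nx j → ∃ c : ℕ → ℤ, x = ∑ l ∈ Finset.range j, c l • bq nx l := by
  intro j
  induction j with
  | zero =>
    intro _ x _ hx
    refine ⟨0, ?_⟩
    simpa [Wq] using hx
  | succ j ih =>
    intro h x hxM hx
    obtain ⟨m, hm⟩ := one_step (Wq nx j) (bq nx j) x
    have hx' : x ∈ Wq nx j ⊔ Submodule.span ℝ {bq nx j} := hx
    rw [dst_of_mem hx'] at hm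
    obtain ⟨h1, h2, h3⟩ := h j (by omega)
    have hyM : x - m • bq nx j ∈ M := M.sub_mem hxM (M.zsmul_mem h1 m)
    have hyW : x - m • bq nx j ∈ Wq nx (j + 1) :=
      Submodule.sub_mem _ hx ((Wq nx (j + 1)).toAddSubgroup.zsmul_mem (bq_mem nx j) m)
    have hy : x - m • bq nx j ∈ Wq nx j := by
      by_contra hcon
      have h4 := h3 _ hyM hyW hcon
      have h5 := dst_pos h2
      have h6 := dst_pos hcon
      nlinarith
    obtain ⟨c, hc⟩ := ih (fun l hl => ⟨(h l (by omega)).1, (h l (by omega)).2.1,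
      fun x hxM hx hxl => (h l (by omega)).2.2 x hxM (Wq_mono nx (Nat.le_succ j) hx) hxl⟩)
      _ hyM hy
    refine ⟨fun l => if l = j then m else c l, ?_⟩
    rw [Finset.sum_range_succ]
    have : ∑ l ∈ Finset.range j, (if l = j then m else c l) • bq nx l =
        ∑ l ∈ Finset.range j, c l • bq nx l := by
      apply Finset.sum_congr rfl
      intro l hl
      rw [if_neg]
      have := Finset.mem_range.1 hl
      omega
    rw [this, ← hc]
    simp

end gen

lemma range_fin_eq {α : Type*} (f : ℕ → α) (j : ℕ) :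
    Set.range (fun i : Fin j => f i) = f '' Set.Iio j := by
  ext y
  constructor
  · rintro ⟨i, rfl⟩
    exact ⟨i, i.2, rfl⟩
  · rintro ⟨i, hi, rfl⟩
    exact ⟨⟨i, hi⟩, rfl⟩

/-- the candidates -/
def Fs {n : ℕ} (M : AddSubgroup (E n)) (V : Submodule ℝ (E n)) (τ : ℝ) (W : Submodule ℝ (E n)) :
    Set (E n) := {x | x ∈ M ∧ x ∈ V ∧ x ∉ W ∧ ‖x‖ ≤ n * τ}

theorem m1 : StmtM1 := by
  classical
  intro n M τ hfin hτ
  set V := Submodule.span ℝ (bal M τ) with hV
  set k := Module.finrank ℝ V with hk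
  have hF : ∀ W, (Fs M V τ W).Finite := fun W =>
    (hfin (n * τ)).subset (fun x hx => ⟨hx.1, hx.2.2.2⟩)
  obtain ⟨nx, hnx⟩ : ∃ nx : Submodule ℝ (E n) → E n, ∀ W, (Fs M V τ W).Nonempty →
      nx W ∈ Fs M V τ W ∧ ∀ x ∈ Fs M V τ W, dst W (nx W) ≤ dst W x := by
    have : ∀ W : Submodule ℝ (E n), ∃ y : E n, (Fs M V τ W).Nonempty →
        y ∈ Fs M V τ W ∧ ∀ x ∈ Fs M V τ W, dst W y ≤ dst W x := by
      intro W
      by_cases h : (Fs M V τ W).Nonempty
      · obtain ⟨y, hy, hy'⟩ := Set.exists_min_image (Fs M V τ W) (dst W) (hF W) h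
        exact ⟨y, fun _ => ⟨hy, hy'⟩⟩
      · exact ⟨0, fun h' => absurd h' h⟩
    choose nx hnx using this
    exact ⟨nx, hnx⟩
  have hkn : k ≤ n := by
    have := Submodule.finrank_le V
    rw [finrank_euclideanSpace_fin] at this
    exact this
  -- a short vector outside a small subspace
  have hshort : ∀ W : Submodule ℝ (E n), Module.finrank ℝ W < k → ∃ x ∈ bal M τ, x ∉ W := by
    intro W hW
    by_contra hcon
    push Not at hcon
    have h1 : V ≤ W := Submodule.span_le.2 hcon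
    have h2 := Submodule.finrank_mono h1
    omega
  have hne : ∀ j, j ≤ k → ∀ i < j, (Fs M V τ (Wq nx i)).Nonempty := by
    intro j
    induction j with
    | zero => intro _ i hi; omega
    | succ j ih =>
      intro hj i hi
      rcases Nat.lt_succ_iff_lt_or_eq.1 hi with hi' | rfl
      · exact ih (by omega) i hi'
      · have h1 : LinearIndependent ℝ (fun l : Fin i => bq nx l) :=
          li nx i (fun l hl => (hnx _ (ih (by omega) l hl)).1.2.2.1)
        have h2 : Module.finrank ℝ (Wq nx i) = i := by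
          rw [Wq_eq_span, ← range_fin_eq, finrank_span_eq_card h1, Fintype.card_fin]
        obtain ⟨x, hx, hxW⟩ := hshort (Wq nx i) (by omega)
        refine ⟨x, hx.1, Submodule.subset_span hx, hxW, hx.2.trans ?_⟩
        have hn : (1 : ℝ) ≤ n := by exact_mod_cast (by omega : 1 ≤ n)
        nlinarith
  have hb : ∀ i < k, bq nx i ∈ Fs M V τ (Wq nx i) ∧
      ∀ x ∈ Fs M V τ (Wq nx i), dst (Wq nx i) (bq nx i) ≤ dst (Wq nx i) x :=
    fun i hi => hnx _ (hne k le_rfl i hi)
  have hLI : LinearIndependent ℝ (fun l : Fin k => bq nx l) :=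
    li nx k (fun l hl => (hb l hl).1.2.2.1)
  have hfr : ∀ i ≤ k, Module.finrank ℝ (Wq nx i) = i := by
    intro i hi
    have h1 : LinearIndependent ℝ (fun l : Fin i => bq nx l) :=
      li nx i (fun l hl => (hb l (by omega)).1.2.2.1)
    rw [Wq_eq_span, ← range_fin_eq, finrank_span_eq_card h1, Fintype.card_fin]
  have hd : ∀ i < k, dst (Wq nx i) (bq nx i) ≤ τ := by
    intro i hi
    obtain ⟨x, hx, hxW⟩ := hshort (Wq nx i) (by rw [hfr i hi.le]; exact hi)
    have hn : (1 : ℝ) ≤ n := by exact_mod_cast (by omega : 1 ≤ n)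
    refine ((hb i hi).2 x ⟨hx.1, Submodule.subset_span hx, hxW, hx.2.trans (by nlinarith)⟩).trans
      ((dst_le_norm _ _).trans hx.2)
  have hWV : ∀ i ≤ k, Wq nx i ≤ V := by
    intro i hi
    rw [Wq_eq_span, Submodule.span_le]
    rintro _ ⟨l, hl, rfl⟩
    exact (hb l (lt_of_lt_of_le hl hi)).1.2.1
  -- minimality
  have hmin : ∀ i < k, ∀ x ∈ M, x ∈ V → x ∉ Wq nx i →
      dst (Wq nx i) (bq nx i) ≤ dst (Wq nx i) x := by
    intro i hi x hxM hxV hxW
    rcases le_total (dst (Wq nx i) x) τ with hle | hle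
    · obtain ⟨z, hz, hz', hz''⟩ := size_red nx M i (fun l hl => (hb l (by omega)).1.1) x
      have hsum : ∑ l ∈ Finset.range i, dst (Wq nx l) (bq nx l) ^ 2 ≤ i * τ ^ 2 := by
        have : ∑ l ∈ Finset.range i, dst (Wq nx l) (bq nx l) ^ 2 ≤
            ∑ _l ∈ Finset.range i, τ ^ 2 := by
          apply Finset.sum_le_sum
          intro l hl
          have hl' := Finset.mem_range.1 hl
          exact pow_le_pow_left₀ (dst_nonneg _ _) (hd l (by omega)) 2
        simpa using this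
      have hn : (i : ℝ) + 1 ≤ n := by exact_mod_cast (by omega : i + 1 ≤ n)
      have hi0 : (0 : ℝ) ≤ i := Nat.cast_nonneg i
      have hle2 : dst (Wq nx i) x ^ 2 ≤ τ ^ 2 := pow_le_pow_left₀ (dst_nonneg _ _) hle 2
      have hnorm : ‖x - z‖ ≤ n * τ := by
        apply le_of_sq_le_sq _ (by positivity)
        have hn2 : 1 + 1 / 4 * (i : ℝ) ≤ (n : ℝ) ^ 2 := by nlinarith
        calc ‖x - z‖ ^ 2 ≤ τ ^ 2 + 1 / 4 * (i * τ ^ 2) := by linarith
          _ = (1 + 1 / 4 * (i : ℝ)) * τ ^ 2 := by ring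
          _ ≤ (n : ℝ) ^ 2 * τ ^ 2 := mul_le_mul_of_nonneg_right hn2 (sq_nonneg _)
          _ = (n * τ) ^ 2 := by ring
      have h1 := (hb i hi).2 (x - z) ⟨M.sub_mem hxM hz, V.sub_mem hxV (hWV i hi.le hz'),
        fun h => hxW (by simpa using (Wq nx i).add_mem h hz'), hnorm⟩
      rwa [dst_sub x hz'] at h1
    · exact (hd i hi).trans hle
  have hWk : Wq nx k = V := Submodule.eq_of_le_of_finrank_eq (hWV k le_rfl) (hfr k le_rfl)
  -- Gram-Schmidt norms
  have hgs : ∀ i : Fin k, gsn (fun l : Fin k => bq nx l) i = dst (Wq nx i) (bq nx i) := by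
    intro i
    unfold gsn
    rw [gs_eq_dst, Wq_eq_span]
    congr 2
    ext y
    constructor
    · rintro ⟨l, hl, rfl⟩
      exact ⟨l, hl, rfl⟩
    · rintro ⟨l, hl, rfl⟩
      exact ⟨⟨l, lt_trans hl i.2⟩, hl, rfl⟩
  refine ⟨fun l : Fin k => bq nx l, fun i => (hb i i.2).1.1, hLI, fun i => (hb i i.2).1.2.2.2,
    fun i => ?_, fun i j hij => ?_, fun x hxM hxV => ?_⟩
  · rw [hgs]
    exact hd i i.2
  · rw [hgs, hgs]
    obtain ⟨m, hm⟩ := one_step (Wq nx i) (bq nx i) (bq nx j)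
    rw [← Wq_succ, hij] at hm
    have h1 : bq nx j - m • bq nx i ∉ Wq nx i := by
      intro h
      apply (hb j j.2).1.2.2.1
      have h2 : m • bq nx i ∈ Wq nx j := by
        rw [← hij]
        exact (Wq nx (i + 1)).toAddSubgroup.zsmul_mem (bq_mem nx i) m
      have h3 := (Wq nx j).add_mem (Wq_mono nx (by omega) h) h2
      simpa using h3
    have h2 := hmin i i.2 _ (M.sub_mem (hb j j.2).1.1 (M.zsmul_mem (hb i i.2).1.1 m))
      (V.sub_mem (hb j j.2).1.2.1 (V.toAddSubgroup.zsmul_mem (hb i i.2).1.2.1 m)) h1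
    have h3 := pow_le_pow_left₀ (dst_nonneg _ _) h2 2
    linarith
  · obtain ⟨c, hc⟩ := int_comb nx M k (fun l hl => ⟨(hb l hl).1.1, (hb l hl).1.2.2.1,
      fun x hxM hx hxl => hmin l hl x hxM (hWk ▸ hx) hxl⟩) x hxM (hWk ▸ hxV)
    refine ⟨fun i => c i, ?_⟩
    rw [hc, Finset.sum_range]

end Pool.Agent.T6.H94.PF.M1
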